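import Mathlib
import Pool.Agent.H735.Cp.Basic
import Pool.Graph.R_seed8.R582.ZZ.MA

/-!
# MP_e2257e_gt, Q1: it is consistent that the answer is no

The forcing notion is the measure algebra of `[0,1] ^ (W × W)`, used by an earlier run for
`add(S₁(Γ,Γ)) < 𝔟` (problem MP_6e1b89_gt); here it is shown that in the extension there are fewer than
`𝔟` sets of irrationals with the property `S₁(Γ,Γ)` (so with `C_p` satisfying `S₁(Γ₀,Γ₀)`) whose union
is a copy of the Cantor space, for which even `C_p` of the union fails `S₁(Γ₀,Γ₀)`.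
-/

namespace Pool.Agent.Results.MP_e2257e_gt.ConsistentlyFails

open Cardinal Set Filter MeasureTheory
open Pool.Agent.R582.Rand (MAlg)
open Pool.Agent.R582.GG
open Pool.Agent.R582.ZZ (MartinAxiom)
open Pool.Agent.H735.Cp

/-- the least number of sets of irrationals `X` with `C_p(X)` satisfying `S₁(Γ₀,Γ₀)` such that for their
union this fails -/
noncomputable def addCp : Cardinal.{0} :=
  sInf {κ : Cardinal.{0} | ∃ 𝓕 : Set (Set ℝ), #𝓕 = κ ∧
    (∀ X ∈ 𝓕, X ⊆ {x : ℝ | Irrational x} ∧ S1 (zero X)) ∧ ¬ S1 (zero (⋃₀ 𝓕))}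

/-- (1) Let `W` be a nonempty linearly ordered set in which countable sets have strict upper bounds and
such that all families of functions from `ℕ` to `ℕ` indexed by `W` are bounded modulo finite sets. Then
every condition of the measure algebra of `[0,1] ^ (W × W)` (adding random reals) forces `Hyp` for `W`,
the set of names of points of the Cantor space and the relation `e` depends on the coordinates with
first component at most `w` only. (2) If `ℵ₁ < 𝔟` then there is such a `W` with `ℵ₁` elements.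
(3) Martin's axiom and `ℵ₁ < 𝔠` imply `ℵ₁ < 𝔟`. (4) In ZFC, `Hyp W E R` implies that `|W| < 𝔟` and that
there are sets of irrationals `X w`, `w` in `W`, satisfying `S₁(Γ,Γ)`, with `C_p(X w)` satisfying
`S₁(Γ₀,Γ₀)`, such that `C_p` of their union does not satisfy `S₁(Γ₀,Γ₀)`; so the least number of
sets as in the question is at most `|W| < 𝔟` and the sentence of the frozen statement is false. -/
theorem result :
    (∀ (W : Type) [LinearOrder W] [Nonempty W], (∀ f : ℕ → W, ∃ w, ∀ n, f n < w) →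
      (∀ F : W → ℕ → ℕ, ∃ g : ℕ → ℕ, ∀ w, ∀ᶠ n in atTop, F w n ≤ g n) →
      ∀ p : MAlg (mu (W × W)), p ∈ HypN (MAlg (mu (W × W))) W (EE (W × W)) (RR W)) ∧
    (ℵ_ 1 < bb → ∃ (W : Type) (_ : LinearOrder W), Nonempty W ∧ #W = ℵ_ 1 ∧
      (∀ f : ℕ → W, ∃ w, ∀ n, f n < w) ∧
      ∀ F : W → ℕ → ℕ, ∃ g : ℕ → ℕ, ∀ w, ∀ᶠ n in atTop, F w n ≤ g n) ∧
    (MartinAxiom → ℵ_ 1 < (𝔠 : Cardinal.{0}) → ℵ_ 1 < bb) ∧
    (∀ (W E : Type) (R : W → E → Prop), Hyp W E R →
      #W < bb ∧
      (∃ X : W → Set ℝ, (∀ w, X w ⊆ {x : ℝ | Irrational x}) ∧ (∀ w, SGG (X w)) ∧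
        (∀ w, S1 (zero (X w))) ∧ ¬ S1 (zero (⋃ w, X w))) ∧
      addCp ≤ #W ∧ addCp < bb ∧ ¬ Sentence) := by
  refine ⟨fun W _ _ hb hW p => forces hb hW p, fun h => ?_, fun hMA hCH => ?_, fun W E R h => ?_⟩
  · have hW : #(ℵ_ 1 : Cardinal.{0}).ord.ToType = ℵ_ 1 := Cardinal.mk_ord_toType _
    have hne : Nonempty (ℵ_ 1 : Cardinal.{0}).ord.ToType := by
      rw [← Cardinal.mk_ne_zero_iff, hW]
      exact (Cardinal.aleph_pos 1).ne'
    refine ⟨(ℵ_ 1 : Cardinal.{0}).ord.ToType, inferInstance, hne, hW, fun f => ?_, fun F => ?_⟩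
    · by_contra hcon
      push Not at hcon
      have h1 : (⋃ n, Iic (f n)) = (univ : Set (ℵ_ 1 : Cardinal.{0}).ord.ToType) := by
        refine eq_univ_of_forall fun w => ?_
        obtain ⟨n, hn⟩ := hcon w
        exact mem_iUnion.2 ⟨n, hn⟩
      have h2 : ∀ n, (Iic (f n)).Countable := by
        intro n
        rw [← Set.Iio_insert]
        refine Set.Countable.insert _ ?_
        have h4 : #(Iio (f n)) < ℵ_ 1 := by
          simpa using Cardinal.mk_Iio_lt (f n) (by simp)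
        exact Cardinal.le_aleph0_iff_set_countable.1 (Cardinal.lt_aleph_one_iff.1 h4)
      have h3 := countable_iUnion h2
      rw [h1, ← Cardinal.le_aleph0_iff_set_countable, Cardinal.mk_univ, hW] at h3
      exact absurd h3 (not_le.2 Cardinal.aleph0_lt_aleph_one)
    · exact bdd_of_lt_bb (by rw [hW]; exact h) F
  · by_contra hcon
    rw [not_lt] at hcon
    obtain ⟨F, hF, hF2⟩ := bb_mem
    obtain ⟨g, hg⟩ := hMA.bounded (ι := F) ((hF.le.trans hcon).trans_lt hCH) fun f => f.1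
    obtain ⟨f, hf, hf2⟩ := hF2 g
    exact hf2 (eventually_atTop.2 (hg ⟨f, hf⟩))
  · obtain ⟨X, hX1, hX2, D, hD1, hD2, hD3⟩ := main h
    have hbad := not_s1_range hD1 hD2 hD3
    have hle : addCp ≤ #W := by
      have hm : #(range X) ∈ {κ : Cardinal.{0} | ∃ 𝓕 : Set (Set ℝ), #𝓕 = κ ∧
          (∀ X ∈ 𝓕, X ⊆ {x : ℝ | Irrational x} ∧ S1 (zero X)) ∧ ¬ S1 (zero (⋃₀ 𝓕))} := by
        refine ⟨range X, rfl, ?_, ?_⟩
        · rintro _ ⟨w, rfl⟩
          exact ⟨hX1 w, (hX2 w).s1⟩
        · rw [sUnion_range]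
          exact hbad
      exact (csInf_le' hm).trans Cardinal.mk_range_le
    exact ⟨h.lt_bb, ⟨X, hX1, fun w => sgg_of (hX2 w), fun w => (hX2 w).s1, hbad⟩, hle,
      hle.trans_lt h.lt_bb, not_sentence h⟩

end Pool.Agent.Results.MP_e2257e_gt.ConsistentlyFails
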